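import Pool.Agent.Helper69.UX.StA

set_option autoImplicit false

namespace Pool.Agent.Helper21.UX

open Finset Filter Pool.Agent.Helper82.CN Pool.Agent.Helper11.PV Pool.Agent.Helper69.VX Pool.Agent.Helper69.UX

open Classical in
private lemma pzw_core (p : ℝ) (hp0 : 0 ≤ p) (hp1 : p ≤ 1) (n : ℕ)
    (Z : (Sym2 (Fin n) → Bool) → ℝ) (A : (Sym2 (Fin n) → Bool) → Prop)
    (hZA : ∀ ω, ¬ A ω → Z ω = 0) (a b : ℝ) (ha : 0 ≤ a) (h1 : a ≤ EE p Z)
    (h2 : EE p (fun ω => Z ω ^ 2) ≤ b) (hb : 0 < b) : a ^ 2 / b ≤ PP p A := by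
  have h := EE_cs hp0 hp1 Z (fun ω => if A ω then (1:ℝ) else 0)
  have e1 : (fun ω => Z ω * (if A ω then (1:ℝ) else 0)) = Z := by
    funext ω
    by_cases hA : A ω
    · simp [hA]
    · simp [hA, hZA ω hA]
  have e2 : (fun ω => (if A ω then (1:ℝ) else 0) ^ 2) = (fun ω => if A ω then (1:ℝ) else 0) := by
    funext ω
    by_cases hA : A ω <;> simp [hA]
  rw [e1, e2] at h
  have h3 : a ^ 2 ≤ (EE p Z) ^ 2 := pow_le_pow_left₀ ha h1 2
  have h4 : 0 ≤ PP p A := EE_nonneg hp0 hp1 (fun ω => by split_ifs <;> norm_num)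
  rw [div_le_iff₀ hb]
  calc a ^ 2 ≤ (EE p Z) ^ 2 := h3
    _ ≤ EE p (fun ω => Z ω ^ 2) * PP p A := h
    _ ≤ b * PP p A := mul_le_mul_of_nonneg_right h2 h4
    _ = PP p A * b := mul_comm _ _

open Classical in
private lemma pzw_sq (n T : ℕ) (η : ℝ) (E : Finset (Finset (Finset (Fin n)))) (ω : Sym2 (Fin n) → Bool) :
    (∑ P ∈ E, (if prp ω P then (1 : ℝ) else 0) * Real.exp (-η * Xk n T ω)) ^ 2 =
    ∑ P ∈ E, ∑ Q ∈ E, (if prp ω P ∧ prp ω Q then (1 : ℝ) else 0) *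
      Real.exp (-2 * η * Xk n T ω) := by
  rw [sq, Finset.sum_mul_sum]
  refine Finset.sum_congr rfl fun P _ => Finset.sum_congr rfl fun Q _ => ?_
  have e : Real.exp (-2 * η * Xk n T ω) = Real.exp (-η * Xk n T ω) * Real.exp (-η * Xk n T ω) := by
    rw [← Real.exp_add]
    congr 1
    ring
  rw [e]
  by_cases hP : prp ω P <;> by_cases hQ : prp ω Q <;> simp [hP, hQ]

private lemma pzw_alg (kT M x : ℝ) (q I2 c ρ : ℝ) (hq : 0 < q) (hI : 0 < I2) (hc : 0 < c) (hρ : 0 < ρ) :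
    Real.exp (kT ^ 2 / M - 3 * x) / ρ =
    (c * (q * Real.exp (-(kT / M) * M + (kT / M) ^ 2 * M / 2 - (kT / M) * kT - x))) ^ 2 /
      (q ^ 2 * Real.exp (-4 * (kT / M) * kT - 2 * (kT / M) * M + 2 * (kT / M) ^ 2 * M + x) *
        (c ^ 2 * ρ)) := by
  have e0 : (kT / M) ^ 2 * M = kT ^ 2 / M := by
    by_cases hM : M = 0
    · simp [hM]
    · field_simp
  have e1 : Real.exp (-(kT / M) * M + (kT / M) ^ 2 * M / 2 - (kT / M) * kT - x) ^ 2 =
      Real.exp (kT ^ 2 / M - 3 * x) *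
      Real.exp (-4 * (kT / M) * kT - 2 * (kT / M) * M + 2 * (kT / M) ^ 2 * M + x) := by
    rw [← Real.exp_nat_mul, ← Real.exp_add]
    congr 1
    have e2 : kT / M * kT = kT ^ 2 / M := by ring
    push_cast
    linear_combination (-1) * e0 + 2 * e2
  rw [mul_pow, mul_pow, e1]
  have h1 := Real.exp_pos (-4 * (kT / M) * kT - 2 * (kT / M) * M + 2 * (kT / M) ^ 2 * M + x)
  rw [div_eq_div_iff hρ.ne' (by positivity)]
  ring

open Classical in
theorem hPZW : StWTL → StWTU → StOPT → StPZW := by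
  intro hWTL hWTU hOPT p ε hp0 hp1 hε hε1
  obtain ⟨n1, h1⟩ := hWTL p ε hp0 hp1 hε hε1
  obtain ⟨n2, h2⟩ := hWTU p ε hp0 hp1 hε hε1
  refine ⟨max n1 n2, ?_⟩
  intro n T th E kT k I ρ hn hW hne hE hρ hsum
  have hq : 0 < 1 - p := by
    have : 0 < 1 / Real.exp 2 := by positivity
    linarith
  have hpn : 0 ≤ p := hp0.le
  have hpl : p ≤ 1 := by linarith
  have hc : (0 : ℝ) < E.card := by exact_mod_cast Finset.card_pos.mpr hne
  have hn1 : n1 ≤ n := le_trans (le_max_left _ _) hn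
  have hn2 : n2 ≤ n := le_trans (le_max_right _ _) hn
  -- lower bound for the first moment
  have hlow : (E.card : ℝ) * ((1 - p) ^ I * Real.exp (-((kT : ℝ) / Mk p n T) * Mk p n T +
      ((kT : ℝ) / Mk p n T) ^ 2 * Mk p n T / 2 - ((kT : ℝ) / Mk p n T) * kT - (n : ℝ) ^ ε)) ≤
      EE p (fun ω : Sym2 (Fin n) → Bool => ∑ P ∈ E, (if prp ω P then (1 : ℝ) else 0) *
        Real.exp (-((kT : ℝ) / Mk p n T) * Xk n T ω)) := by
    rw [EE_sum, ← nsmul_eq_mul]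
    refine Finset.card_nsmul_le_sum E _ _ fun P hP => ?_
    obtain ⟨hP1, hP2, hP3, hP4, hP5⟩ := hE P hP
    have h := h1 n T th P kT ((kT : ℝ) / Mk p n T) hn1 hW hP1 hP2 hP3 rfl
    rw [hP5] at h
    exact h
  -- upper bound for the second moment
  have hup : EE p (fun ω : Sym2 (Fin n) → Bool => (∑ P ∈ E, (if prp ω P then (1 : ℝ) else 0) *
        Real.exp (-((kT : ℝ) / Mk p n T) * Xk n T ω)) ^ 2) ≤
      ((1 - p) ^ I) ^ 2 * Real.exp (-4 * ((kT : ℝ) / Mk p n T) * kT - 2 * ((kT : ℝ) / Mk p n T) * Mk p n T +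
        2 * ((kT : ℝ) / Mk p n T) ^ 2 * Mk p n T + (n : ℝ) ^ ε) * ((E.card : ℝ) ^ 2 * ρ) := by
    have e : (fun ω : Sym2 (Fin n) → Bool => (∑ P ∈ E, (if prp ω P then (1 : ℝ) else 0) *
        Real.exp (-((kT : ℝ) / Mk p n T) * Xk n T ω)) ^ 2) =
        (fun ω : Sym2 (Fin n) → Bool => ∑ P ∈ E, ∑ Q ∈ E,
          (if prp ω P ∧ prp ω Q then (1 : ℝ) else 0) *
          Real.exp (-2 * ((kT : ℝ) / Mk p n T) * Xk n T ω)) := by
      funext ω
      exact pzw_sq n T _ E ω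
    rw [e, EE_sum]
    have hb : ∀ P ∈ E, EE p (fun ω : Sym2 (Fin n) → Bool => ∑ Q ∈ E,
          (if prp ω P ∧ prp ω Q then (1 : ℝ) else 0) *
          Real.exp (-2 * ((kT : ℝ) / Mk p n T) * Xk n T ω)) ≤
        ((1 - p) ^ I) ^ 2 * Real.exp (-4 * ((kT : ℝ) / Mk p n T) * kT - 2 * ((kT : ℝ) / Mk p n T) * Mk p n T +
        2 * ((kT : ℝ) / Mk p n T) ^ 2 * Mk p n T + (n : ℝ) ^ ε) * ((E.card : ℝ) * ρ) := by
      intro P hP
      obtain ⟨hP1, hP2, hP3, hP4, hP5⟩ := hE P hP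
      rw [EE_sum]
      have hs := hsum P hP
      refine le_trans ?_ (mul_le_mul_of_nonneg_left hs
        (by positivity : (0 : ℝ) ≤ ((1 - p) ^ I) ^ 2 * Real.exp (-4 * ((kT : ℝ) / Mk p n T) * kT -
          2 * ((kT : ℝ) / Mk p n T) * Mk p n T + 2 * ((kT : ℝ) / Mk p n T) ^ 2 * Mk p n T + (n : ℝ) ^ ε)))
      rw [Finset.mul_sum]
      refine Finset.sum_le_sum fun Q hQ => ?_
      obtain ⟨hQ1, hQ2, hQ3, hQ4, hQ5⟩ := hE Q hQ
      have h := h2 n T th P Q kT ((kT : ℝ) / Mk p n T) hn2 hW hP1 hP2 hP3 hQ1 hQ2 hQ3 rfl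
      refine le_trans h (le_of_eq ?_)
      rw [hP5, hQ5]
      have e3 : Real.exp (-2 * ((kT : ℝ) / Mk p n T) * (2 * kT - ((P ∩ Q).filter (fun A => A.card = T)).card) -
          2 * ((kT : ℝ) / Mk p n T) * Mk p n T + 2 * ((kT : ℝ) / Mk p n T) ^ 2 * Mk p n T + (n : ℝ) ^ ε) =
          Real.exp (-4 * ((kT : ℝ) / Mk p n T) * kT -
          2 * ((kT : ℝ) / Mk p n T) * Mk p n T + 2 * ((kT : ℝ) / Mk p n T) ^ 2 * Mk p n T + (n : ℝ) ^ ε) *
          Real.exp (2 * ((kT : ℝ) / Mk p n T) * ((P ∩ Q).filter (fun A => A.card = T)).card) := by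
        rw [← Real.exp_add]
        congr 1
        ring
      rw [e3]
      ring
    refine le_trans (Finset.sum_le_sum hb) (le_of_eq ?_)
    rw [Finset.sum_const, nsmul_eq_mul]
    ring
  have hmain := pzw_core p hpn hpl n _ (fun ω => ch (gr ω) ≤ k) (fun ω hω => ?_) _ _ (by positivity) hlow hup
    (by positivity)
  · rw [pzw_alg (kT : ℝ) (Mk p n T) ((n : ℝ) ^ ε) ((1 - p) ^ I) 1 (E.card : ℝ) ρ (by positivity) one_pos hc hρ]
    exact hmain
  · refine Finset.sum_eq_zero fun P hP => ?_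
    obtain ⟨hP1, hP2, hP3, hP4, hP5⟩ := hE P hP
    have : ¬ prp ω P := by
      intro hpr
      apply hω
      have h := (hOPT n ω).2 P hP1 hpr
      rw [hP4] at h
      show ((gr ω).chromaticNumber.toNat : ℝ) ≤ k
      exact_mod_cast h
    simp [this]

end Pool.Agent.Helper21.UX
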